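import Mathlib

/-!
# Number-conserving three-state cellular automata on an abelian group

Abstract framework: a finite symmetric neighbourhood with the cancellation property
of the von Neumann neighbourhood, configurations with at most three nonzero cells,
and the pair and triple expansions forced by number conservation.
-/

set_option linter.unusedSectionVars false

namespace Helper909CA

open Function

variable {G : Type*} [AddCommGroup G] [DecidableEq G]

/-- The geometric properties of the neighbourhood which are used. -/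
structure Geo (N : Set G) : Prop where
  fin : N.Finite
  zero_mem : (0 : G) ∈ N
  neg_mem : ∀ {a : G}, a ∈ N → -a ∈ N
  sidon : ∀ {a b c e : G}, a ∈ N → b ∈ N → c ∈ N → e ∈ N → a + e = b + c →
    (a = b ∧ e = c) ∨ (a = c ∧ e = b) ∨ a + e = 0
  two_not : ∀ {e : G}, e ∈ N → e ≠ 0 → e + e ∉ N
  three_not : ∀ {e : G}, e ∈ N → e ≠ 0 → e + e + e ∉ N
  tf : ∀ {e : G} {n : ℤ}, n • e = 0 → n = 0 ∨ e = 0

/-- The dynamical properties used. -/
structure Cons (N : Set G) (F : (G → Fin 3) → G → Fin 3) : Prop where
  loc : ∀ (x y : G → Fin 3) (v : G), (∀ u ∈ N, x (v + u) = y (v + u)) → F x v = F y v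
  eqv : ∀ (x : G → Fin 3) (t v : G), F (fun z => x (z + t)) v = F x (v + t)
  zero : ∀ v, F (fun _ => 0) v = 0
  cons : ∀ x : G → Fin 3, (support x).Finite →
    ∑ᶠ v, ((F x v).val : ℤ) = ∑ᶠ v, ((x v).val : ℤ)
  inj : ∀ x y : G → Fin 3, (support x).Finite → (support y).Finite → F x = F y → x = y

/-- Indicator of a cell. -/
def dl (p : G) : G → ℤ := fun z => if z = p then 1 else 0

@[simp] theorem dl_self (p : G) : dl p p = 1 := by simp [dl]
theorem dl_apply (p z : G) : dl p z = if z = p then 1 else 0 := rfl
theorem dl_ne {p z : G} (h : z ≠ p) : dl p z = 0 := by simp [dl, h]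
theorem dl_nonneg (p z : G) : 0 ≤ dl p z := by
  unfold dl; split_ifs <;> norm_num

/-- one nonzero cell -/
def mono (s : Fin 3) (p : G) : G → Fin 3 := fun z => if z = p then s else 0

/-- two cells -/
def duo (s : Fin 3) (p : G) (t : Fin 3) (q : G) : G → Fin 3 :=
  fun z => if z = p then s else if z = q then t else 0

/-- three cells -/
def trio (s : Fin 3) (p : G) (t : Fin 3) (q : G) (w : Fin 3) (r : G) : G → Fin 3 :=
  fun z => if z = p then s else if z = q then t else if z = r then w else 0

theorem mono_fin (s : Fin 3) (p : G) : (support (mono s p)).Finite := by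
  apply (Set.finite_singleton p).subset
  intro z hz
  by_contra h
  exact hz (by simp [mono]; intro h'; exact absurd h' h)

theorem duo_fin (s : Fin 3) (p : G) (t : Fin 3) (q : G) : (support (duo s p t q)).Finite := by
  apply (Set.toFinite ({p, q} : Set G)).subset
  intro z hz
  by_contra h
  simp only [Set.mem_insert_iff, Set.mem_singleton_iff, not_or] at h
  exact hz (by simp [duo, h.1, h.2])

theorem trio_fin (s : Fin 3) (p : G) (t : Fin 3) (q : G) (w : Fin 3) (r : G) :
    (support (trio s p t q w r)).Finite := by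
  apply (Set.toFinite ({p, q, r} : Set G)).subset
  intro z hz
  by_contra h
  simp only [Set.mem_insert_iff, Set.mem_singleton_iff, not_or] at h
  exact hz (by simp [trio, h.1, h.2.1, h.2.2])

theorem duo_symm (s : Fin 3) {p : G} (t : Fin 3) {q : G} (h : p ≠ q) :
    duo s p t q = duo t q s p := by
  funext z
  unfold duo
  by_cases h1 : z = p
  · have : z ≠ q := by rintro rfl; exact h h1.symm
    simp [h1, h]
  · by_cases h2 : z = q
    · simp [h2, h.symm]
    · simp [h1, h2]

/-- value map -/
def P (F : (G → Fin 3) → G → Fin 3) (x : G → Fin 3) : G → ℤ := fun v => ((F x v).val : ℤ)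

theorem P_nonneg (F : (G → Fin 3) → G → Fin 3) (x : G → Fin 3) (v : G) : 0 ≤ P F x v := by
  unfold P; positivity

theorem P_le (F : (G → Fin 3) → G → Fin 3) (x : G → Fin 3) (v : G) : P F x v ≤ 2 := by
  unfold P
  have := (F x v).isLt
  omega

theorem P_inj {F : (G → Fin 3) → G → Fin 3} {x y : G → Fin 3} (h : P F x = P F y) :
    F x = F y := by
  funext v
  have := congrFun h v
  unfold P at this
  apply Fin.ext
  exact_mod_cast this

variable {N : Set G} {F : (G → Fin 3) → G → Fin 3}

section
variable (hN : Geo N) (hF : Cons N F)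
include hF

theorem conflict {x y : G → Fin 3} (hx : (support x).Finite) (hy : (support y).Finite)
    (h : P F x = P F y) : x = y := hF.inj x y hx hy (P_inj h)

theorem P_zero_of {x : G → Fin 3} {v : G} (h : ∀ u ∈ N, x (v + u) = 0) : P F x v = 0 := by
  unfold P
  rw [hF.loc x (fun _ => 0) v h, hF.zero]
  rfl

theorem P_congr {x y : G → Fin 3} {v : G} (h : ∀ u ∈ N, x (v + u) = y (v + u)) :
    P F x v = P F y v := by
  unfold P
  rw [hF.loc x y v h]

theorem mono_loc (s : Fin 3) {p v : G} (h : p - v ∉ N) : P F (mono s p) v = 0 := by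
  apply P_zero_of hF
  intro u hu
  unfold mono
  rw [if_neg]
  rintro rfl
  exact h (by simpa using hu)

theorem duo_loc_right (s : Fin 3) (p : G) (t : Fin 3) {q v : G} (h : q - v ∉ N) :
    P F (duo s p t q) v = P F (mono s p) v := by
  apply P_congr hF
  intro u hu
  have : v + u ≠ q := by rintro rfl; exact h (by simpa using hu)
  simp [duo, mono, this]

theorem duo_loc_left (s : Fin 3) {p : G} (t : Fin 3) {q v : G} (h : p - v ∉ N) :
    P F (duo s p t q) v = P F (mono t q) v := by
  apply P_congr hF
  intro u hu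
  have : v + u ≠ p := by rintro rfl; exact h (by simpa using hu)
  simp [duo, mono, this]

theorem trio_loc3 (s : Fin 3) (p : G) (t : Fin 3) (q : G) (w : Fin 3) {r v : G}
    (h : r - v ∉ N) :
    P F (trio s p t q w r) v = P F (duo s p t q) v := by
  apply P_congr hF
  intro u hu
  have : v + u ≠ r := by rintro rfl; exact h (by simpa using hu)
  simp [duo, trio, this]

theorem trio_loc2 (s : Fin 3) (p : G) (t : Fin 3) {q : G} (w : Fin 3) {r v : G}
    (h : q - v ∉ N) :
    P F (trio s p t q w r) v = P F (duo s p w r) v := by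
  apply P_congr hF
  intro u hu
  have : v + u ≠ q := by rintro rfl; exact h (by simpa using hu)
  simp [duo, trio, this]

theorem trio_loc1 (s : Fin 3) {p : G} (t : Fin 3) {q : G} (w : Fin 3) {r v : G}
    (h : p - v ∉ N) :
    P F (trio s p t q w r) v = P F (duo t q w r) v := by
  apply P_congr hF
  intro u hu
  have : v + u ≠ p := by rintro rfl; exact h (by simpa using hu)
  simp [duo, trio, this]

include hN

theorem P_fin {x : G → Fin 3} (hx : (support x).Finite) : (support (P F x)).Finite := by
  apply (Set.Finite.image2 (fun a b : G => a - b) hx hN.fin).subset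
  intro v hv
  by_contra h
  apply hv
  apply P_zero_of hF
  intro u hu
  by_contra h'
  exact h ⟨v + u, h', u, hu, by simp⟩

end

theorem val_fin {x : G → Fin 3} (hx : (support x).Finite) :
    (support (fun v => ((x v).val : ℤ))).Finite := by
  apply hx.subset
  intro v hv h
  exact hv (by simp [h])

theorem sum_mono (s : Fin 3) (p : G) : ∑ᶠ v, ((mono s p v).val : ℤ) = s.val := by
  rw [finsum_eq_single _ p]
  · simp [mono]
  · intro v hv
    simp [mono, hv]

theorem val_duo (s : Fin 3) {p : G} (t : Fin 3) {q : G} (h : p ≠ q) (v : G) :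
    ((duo s p t q v).val : ℤ) = (mono s p v).val + (mono t q v).val := by
  unfold duo mono
  by_cases h1 : v = p
  · simp [h1, h]
  · simp [h1]

theorem val_trio (s : Fin 3) {p : G} (t : Fin 3) {q : G} (w : Fin 3) {r : G}
    (h : p ≠ q) (h' : p ≠ r) (h'' : q ≠ r) (v : G) :
    ((trio s p t q w r v).val : ℤ) =
      (mono s p v).val + (mono t q v).val + (mono w r v).val := by
  unfold trio mono
  by_cases h1 : v = p
  · simp [h1, h, h']
  · by_cases h2 : v = q
    · subst h2
      simp [h1, h'']
    · simp [h1, h2]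

theorem sum_duo (s : Fin 3) {p : G} (t : Fin 3) {q : G} (h : p ≠ q) :
    ∑ᶠ v, ((duo s p t q v).val : ℤ) = s.val + t.val := by
  rw [finsum_congr (val_duo s t h), finsum_add_distrib (val_fin (mono_fin s p))
    (val_fin (mono_fin t q)), sum_mono, sum_mono]

theorem sum_trio (s : Fin 3) {p : G} (t : Fin 3) {q : G} (w : Fin 3) {r : G}
    (h : p ≠ q) (h' : p ≠ r) (h'' : q ≠ r) :
    ∑ᶠ v, ((trio s p t q w r v).val : ℤ) = s.val + t.val + w.val := by
  have e : ∀ v, ((trio s p t q w r v).val : ℤ) = (duo s p t q v).val + (mono w r v).val := by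
    intro v
    rw [val_trio s t w h h' h'', val_duo s t h]
  rw [finsum_congr e, finsum_add_distrib (val_fin (duo_fin s p t q))
    (val_fin (mono_fin w r)), sum_mono, sum_duo _ _ h]

/-- Two distinct cells seeing two distinct cells: parallelogram. -/
theorem Geo.par (hN : Geo N) {p q v w : G} (hpq : p ≠ q) (hvw : v ≠ w)
    (h1 : p - v ∈ N) (h2 : q - v ∈ N) (h3 : p - w ∈ N) (h4 : q - w ∈ N) :
    v + w = p + q := by
  have key := hN.sidon (a := p - v) (b := q - v) (c := p - w) (e := q - w) h1 h2 h3 h4 (by abel)
  rcases key with ⟨h, _⟩ | ⟨h, _⟩ | h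
  · exact absurd (sub_left_injective h) hpq
  · exact absurd (sub_right_injective h) hvw
  · have : p + q - (v + w) = 0 := by rw [← h]; abel
    exact (sub_eq_zero.mp this).symm

section
variable (hN : Geo N) (hF : Cons N F)
include hN hF

theorem finsum_P {x : G → Fin 3} (hx : (support x).Finite) :
    ∑ᶠ v, P F x v = ∑ᶠ v, ((x v).val : ℤ) := hF.cons x hx

/-- the defect of a pair has zero sum -/
theorem duo_defect (s : Fin 3) {p : G} (t : Fin 3) {q : G} (h : p ≠ q) :
    ∑ᶠ v, (P F (duo s p t q) v - (P F (mono s p) v + P F (mono t q) v)) = 0 := by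
  have f1 := P_fin hN hF (duo_fin s p t q)
  have f2 := P_fin hN hF (mono_fin s p)
  have f3 := P_fin hN hF (mono_fin t q)
  rw [finsum_sub_distrib f1, finsum_add_distrib f2 f3, finsum_P hN hF (duo_fin s p t q),
    finsum_P hN hF (mono_fin s p), finsum_P hN hF (mono_fin t q), sum_duo s t h, sum_mono,
    sum_mono]
  · ring
  · exact (f2.union f3).subset (by
      intro v hv
      by_contra h'
      simp only [Set.mem_union, mem_support, not_or, not_not] at h'
      exact hv (by simp [h'.1, h'.2]))

/-- Pair expansion: additive, or a transfer between the two cells seeing the pair. -/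
theorem pair (s : Fin 3) {p : G} (t : Fin 3) {q : G} (h : p ≠ q) :
    (P F (duo s p t q) = P F (mono s p) + P F (mono t q)) ∨
    ∃ (v w : G) (c : ℤ), v ≠ w ∧ v + w = p + q ∧ p - v ∈ N ∧ q - v ∈ N ∧ p - w ∈ N ∧
      q - w ∈ N ∧ 1 ≤ c ∧
      P F (duo s p t q) = P F (mono s p) + P F (mono t q) + c • (dl v - dl w) := by
  set D : G → ℤ := fun v => P F (duo s p t q) v - (P F (mono s p) v + P F (mono t q) v) with hD
  have hsum : ∑ᶠ v, D v = 0 := duo_defect hN hF s t h
  have hvis : ∀ v, ¬ (p - v ∈ N ∧ q - v ∈ N) → D v = 0 := by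
    intro v hv
    simp only [hD]
    by_cases h1 : p - v ∈ N
    · have h2 : q - v ∉ N := fun h2 => hv ⟨h1, h2⟩
      rw [duo_loc_right hF s p t h2, mono_loc hF t h2]; ring
    · rw [duo_loc_left hF s t h1, mono_loc hF s h1]; ring
  by_cases hall : ∀ v, D v = 0
  · left
    funext v
    have := hall v
    simp only [hD] at this
    simp only [Pi.add_apply]
    linarith
  · right
    push Not at hall
    obtain ⟨v0, hv0⟩ := hall
    have hv0vis : p - v0 ∈ N ∧ q - v0 ∈ N := by
      by_contra h'
      exact hv0 (hvis v0 h')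
    -- there is another cell with nonzero defect
    have hex : ∃ w0, w0 ≠ v0 ∧ D w0 ≠ 0 := by
      by_contra hno
      push Not at hno
      have : ∑ᶠ v, D v = D v0 := finsum_eq_single _ v0 hno
      rw [hsum] at this
      exact hv0 this.symm
    obtain ⟨w0, hw0, hDw0⟩ := hex
    have hw0vis : p - w0 ∈ N ∧ q - w0 ∈ N := by
      by_contra h'
      exact hDw0 (hvis w0 h')
    have hpar := hN.par h hw0.symm hv0vis.1 hv0vis.2 hw0vis.1 hw0vis.2
    have hothers : ∀ z, z ≠ v0 → z ≠ w0 → D z = 0 := by
      intro z hz1 hz2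
      by_contra hz
      have hzvis : p - z ∈ N ∧ q - z ∈ N := by
        by_contra h'
        exact hz (hvis z h')
      have := hN.par h (Ne.symm hz1) hv0vis.1 hv0vis.2 hzvis.1 hzvis.2
      rw [← hpar] at this
      exact hz2 (add_left_cancel this)
    have hsum2 : D v0 + D w0 = 0 := by
      have : ∑ᶠ v, D v = ∑ v ∈ ({v0, w0} : Finset G), D v := by
        apply finsum_eq_sum_of_support_subset
        intro z hz
        by_contra h'
        simp only [Finset.coe_insert, Finset.coe_singleton, Set.mem_insert_iff,
          Set.mem_singleton_iff, not_or] at h'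
        exact hz (hothers z h'.1 h'.2)
      rw [Finset.sum_pair hw0.symm, hsum] at this
      exact this.symm
    have hform : ∀ a b : G, a ≠ b → (∀ z, z ≠ a → z ≠ b → D z = 0) → D a + D b = 0 →
        P F (duo s p t q) = P F (mono s p) + P F (mono t q) + (D a) • (dl a - dl b) := by
      intro a b hab hz hs
      funext z
      have hDz : P F (duo s p t q) z = P F (mono s p) z + P F (mono t q) z + D z := by
        simp only [hD]; ring
      rw [hDz]
      simp only [Pi.add_apply, Pi.smul_apply, Pi.sub_apply, smul_eq_mul]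
      by_cases h1 : z = a
      · subst h1
        rw [dl_self, dl_ne hab]; ring
      · by_cases h2 : z = b
        · subst h2
          rw [dl_self, dl_ne h1]
          linarith
        · rw [hz z h1 h2, dl_ne h1, dl_ne h2]; ring
    rcases lt_or_gt_of_ne hv0 with hneg | hpos
    · refine ⟨w0, v0, D w0, hw0, by rw [add_comm]; exact hpar, hw0vis.1, hw0vis.2, hv0vis.1,
        hv0vis.2, by omega, ?_⟩
      exact hform w0 v0 hw0 (fun z h1 h2 => hothers z h2 h1) (by linarith)
    · exact ⟨v0, w0, D v0, hw0.symm, hpar, hv0vis.1, hv0vis.2, hw0vis.1, hw0vis.2, by omega,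
        hform v0 w0 hw0.symm hothers hsum2⟩

/-- Triple expansion. -/
theorem triple (s : Fin 3) {p : G} (t : Fin 3) {q : G} (w : Fin 3) {r : G}
    (h : p ≠ q) (h' : p ≠ r) (h'' : q ≠ r) :
    P F (trio s p t q w r) = P F (duo s p t q) + P F (duo s p w r) + P F (duo t q w r)
      - P F (mono s p) - P F (mono t q) - P F (mono w r) := by
  set D : G → ℤ := fun v => P F (trio s p t q w r) v -
    ((P F (duo s p t q) v - (P F (mono s p) v + P F (mono t q) v)) +
     (P F (duo s p w r) v - (P F (mono s p) v + P F (mono w r) v)) +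
     (P F (duo t q w r) v - (P F (mono t q) v + P F (mono w r) v)) +
     (P F (mono s p) v + P F (mono t q) v + P F (mono w r) v)) with hD
  have f0 := P_fin hN hF (trio_fin s p t q w r)
  have fpq := P_fin hN hF (duo_fin s p t q)
  have fpr := P_fin hN hF (duo_fin s p w r)
  have fqr := P_fin hN hF (duo_fin t q w r)
  have fp := P_fin hN hF (mono_fin s p)
  have fq := P_fin hN hF (mono_fin t q)
  have fr := P_fin hN hF (mono_fin w r)
  have fin_add : ∀ {a b : G → ℤ}, (support a).Finite → (support b).Finite →
      (support (fun v => a v + b v)).Finite := by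
    intro a b ha hb
    exact (ha.union hb).subset (support_add a b)
  have fin_sub : ∀ {a b : G → ℤ}, (support a).Finite → (support b).Finite →
      (support (fun v => a v - b v)).Finite := by
    intro a b ha hb
    exact (ha.union hb).subset (support_sub a b)
  have hsum : ∑ᶠ v, D v = 0 := by
    simp only [hD]
    have g1 := fin_sub fpq (fin_add fp fq)
    have g2 := fin_sub fpr (fin_add fp fr)
    have g3 := fin_sub fqr (fin_add fq fr)
    have g4 := fin_add (fin_add fp fq) fr
    rw [finsum_sub_distrib f0 (fin_add (fin_add (fin_add g1 g2) g3) g4),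
      finsum_add_distrib (fin_add (fin_add g1 g2) g3) g4,
      finsum_add_distrib (fin_add g1 g2) g3, finsum_add_distrib g1 g2,
      duo_defect hN hF s t h, duo_defect hN hF s w h', duo_defect hN hF t w h'',
      finsum_add_distrib (fin_add fp fq) fr, finsum_add_distrib fp fq,
      finsum_P hN hF (trio_fin s p t q w r), finsum_P hN hF (mono_fin s p),
      finsum_P hN hF (mono_fin t q), finsum_P hN hF (mono_fin w r), sum_mono, sum_mono, sum_mono,
      sum_trio s t w h h' h'']
    ring
  have hvis : ∀ v, ¬ (p - v ∈ N ∧ q - v ∈ N ∧ r - v ∈ N) → D v = 0 := by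
    intro v hv
    simp only [hD]
    by_cases h1 : p - v ∈ N
    · by_cases h2 : q - v ∈ N
      · have h3 : r - v ∉ N := fun h3 => hv ⟨h1, h2, h3⟩
        rw [trio_loc3 hF s p t q w h3, duo_loc_right hF s p w h3, duo_loc_right hF t q w h3,
          mono_loc hF w h3]; ring
      · rw [trio_loc2 hF s p t w h2, duo_loc_right hF s p t h2, duo_loc_left hF t w h2,
          mono_loc hF t h2]; ring
    · rw [trio_loc1 hF s t w h1, duo_loc_left hF s t h1, duo_loc_left hF s w h1,
          mono_loc hF s h1]; ring
  have hall : ∀ v, D v = 0 := by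
    intro v
    by_contra hv
    have hvv : p - v ∈ N ∧ q - v ∈ N ∧ r - v ∈ N := by
      by_contra hx; exact hv (hvis v hx)
    have : ∑ᶠ z, D z = D v := by
      apply finsum_eq_single
      intro z hz
      by_contra hzz
      have hzv : p - z ∈ N ∧ q - z ∈ N ∧ r - z ∈ N := by
        by_contra hx; exact hzz (hvis z hx)
      have e1 := hN.par h hz hzv.1 hzv.2.1 hvv.1 hvv.2.1
      have e2 := hN.par h' hz hzv.1 hzv.2.2 hvv.1 hvv.2.2
      rw [e1] at e2
      exact h'' (add_left_cancel e2)
    rw [hsum] at this
    exact hv this.symm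
  funext v
  have := hall v
  simp only [hD] at this
  simp only [Pi.add_apply, Pi.sub_apply]
  linarith

/-- A pair with at most one common observer is additive; used through its contrapositive. -/
theorem pair_add (s : Fin 3) {p : G} (t : Fin 3) {q : G} (h : p ≠ q)
    (hone : ∀ v w : G, v + w = p + q → p - v ∈ N → q - v ∈ N → p - w ∈ N → q - w ∈ N → v = w) :
    P F (duo s p t q) = P F (mono s p) + P F (mono t q) := by
  rcases pair hN hF s t h with h1 | ⟨v, w, c, hvw, hs, h1, h2, h3, h4, _, _⟩
  · exact h1
  · exact absurd (hone v w hs h1 h2 h3 h4) hvw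

/-- Line pairs are additive. -/
theorem line (s : Fin 3) (p : G) (t : Fin 3) {q e : G} (he : e ∈ N) (he0 : e ≠ 0)
    (hq : q = p + e + e) :
    P F (duo s p t q) = P F (mono s p) + P F (mono t q) := by
  have hne : p ≠ q := by
    intro h
    rw [hq, add_assoc] at h
    have h2 : (2 : ℤ) • e = 0 := by
      rw [two_smul]
      exact (left_eq_add.mp h)
    rcases hN.tf h2 with h3 | h3
    · norm_num at h3
    · exact he0 h3
  apply pair_add hN hF s t hne
  have key : ∀ v : G, p - v ∈ N → q - v ∈ N → v = p + e := by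
    intro v h1 h2
    have := hN.sidon (a := q - v) (b := p - v) (c := e) (e := -e) h2 h1 he
      (hN.neg_mem he) (by rw [hq]; abel)
    rcases this with ⟨h, _⟩ | ⟨h, _⟩ | h
    · exact absurd (sub_left_injective h).symm hne
    · rw [sub_eq_iff_eq_add, hq] at h
      have : p + e = v := by
        have h' : (p + e) + e = v + e := by rw [h]; abel
        exact add_right_cancel h'
      exact this.symm
    · have h' : q - v - e = 0 := by rw [← h]; abel
      rw [sub_eq_zero, sub_eq_iff_eq_add, hq] at h'
      have : p + e = v := by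
        have h'' : (p + e) + e = v + e := by rw [h']; abel
        exact add_right_cancel h''
      exact this.symm
  intro v w _ h1 h2 h3 h4
  rw [key v h1 h2, key w h3 h4]

/-- The line relation in the other order. -/
theorem line' (s : Fin 3) (p : G) (t : Fin 3) {q e : G} (he : e ∈ N) (he0 : e ≠ 0)
    (hq : q = p - e - e) :
    P F (duo s p t q) = P F (mono s p) + P F (mono t q) :=
  line hN hF s p t (hN.neg_mem he) (neg_ne_zero.mpr he0) (by rw [hq]; abel)

end

section
variable (hF : Cons N F)
include hF

theorem mono_trans (s : Fin 3) (p r z : G) :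
    P F (mono s (p + r)) z = P F (mono s p) (z - r) := by
  unfold P
  have := hF.eqv (mono s (p + r)) r (z - r)
  rw [sub_add_cancel] at this
  rw [← this]
  have e : (fun z => mono s (p + r) (z + r)) = mono s p := by
    funext z; simp [mono]
  rw [e]

theorem duo_trans (s : Fin 3) (p : G) (t : Fin 3) (q r z : G) :
    P F (duo s (p + r) t (q + r)) z = P F (duo s p t q) (z - r) := by
  unfold P
  have := hF.eqv (duo s (p + r) t (q + r)) r (z - r)
  rw [sub_add_cancel] at this
  rw [← this]
  have e : (fun z => duo s (p + r) t (q + r) (z + r)) = duo s p t q := by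
    funext z; simp [duo]
  rw [e]

end

theorem dl_trans (p r z : G) : dl p (z - r) = dl (p + r) z := by
  unfold dl
  simp [sub_eq_iff_eq_add]

/-- A nonnegative finitely supported integer function with positive sum dominates an
indicator. -/
theorem exists_dl (g : G → ℤ) (hfin : (support g).Finite) (h0 : ∀ v, 0 ≤ g v) (n : ℤ)
    (hn : 0 ≤ n) (hs : ∑ᶠ v, g v = n + 1) :
    ∃ a, 1 ≤ g a ∧ (∀ v, 0 ≤ g v - dl a v) ∧ (support fun v => g v - dl a v).Finite ∧
      ∑ᶠ v, (g v - dl a v) = n := by
  have hex : ∃ a, g a ≠ 0 := by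
    by_contra hno
    push Not at hno
    rw [finsum_congr hno, finsum_zero] at hs
    omega
  obtain ⟨a, ha⟩ := hex
  have ha1 : 1 ≤ g a := by have := h0 a; omega
  have hdl : (support (dl a : G → ℤ)).Finite := by
    apply (Set.finite_singleton a).subset
    intro z hz
    by_contra h
    exact hz (dl_ne h)
  have hsum : ∑ᶠ v, dl a v = 1 := by
    rw [finsum_eq_single _ a (fun v hv => dl_ne hv), dl_self]
  refine ⟨a, ha1, ?_, (hfin.union hdl).subset (support_sub g (dl a)), ?_⟩
  · intro v
    by_cases hv : v = a
    · subst hv; rw [dl_self]; omega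
    · rw [dl_ne hv]; have := h0 v; omega
  · rw [finsum_sub_distrib hfin hdl, hs, hsum]; ring

theorem eq_zero_of_sum (g : G → ℤ) (hfin : (support g).Finite) (h0 : ∀ v, 0 ≤ g v)
    (hs : ∑ᶠ v, g v = 0) : ∀ v, g v = 0 := by
  intro v
  by_contra hv
  have h1 : 0 < ∑ᶠ v, g v := finsum_pos h0 ⟨v, lt_of_le_of_ne (h0 v) (Ne.symm hv)⟩ hfin
  omega

section
variable (hN : Geo N) (hF : Cons N F)
include hN hF

theorem sees {x : G → Fin 3} {p a : G} (hx : ∀ z, z ≠ p → x z = 0) (ha : P F x a ≠ 0) :
    p - a ∈ N := by
  by_contra h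
  apply ha
  apply P_zero_of hF
  intro u hu
  apply hx
  rintro rfl
  exact h (by simpa using hu)

/-- The image of a single particle of value one. -/
theorem image_one : ∃ a ∈ N, ∀ p, P F (mono 1 p) = dl (p + a) := by
  have hs : ∑ᶠ v, P F (mono 1 0) v = 0 + 1 := by
    rw [finsum_P hN hF (mono_fin 1 0), sum_mono]; norm_num
  obtain ⟨a, ha, h0, hfin, hs'⟩ := exists_dl _ (P_fin hN hF (mono_fin 1 0))
    (P_nonneg F _) 0 le_rfl hs
  have hz := eq_zero_of_sum _ hfin h0 hs'
  refine ⟨a, ?_, ?_⟩
  · have := sees hN hF (x := mono 1 0) (p := 0) (a := a)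
      (fun z hz => by simp [mono, hz]) (by omega)
    simpa using hN.neg_mem this
  · intro p
    funext z
    have h1 := mono_trans hF 1 0 p z
    rw [zero_add] at h1
    rw [h1]
    have := hz (z - p)
    rw [dl_trans] at this
    rw [add_comm p a]
    linarith

/-- The image of a single particle of value two. -/
theorem image_two : ∃ b ∈ N, ∃ c ∈ N, ∀ p, P F (mono 2 p) = dl (p + b) + dl (p + c) := by
  have hs : ∑ᶠ v, P F (mono 2 0) v = 1 + 1 := by
    rw [finsum_P hN hF (mono_fin 2 0), sum_mono]; norm_num
  obtain ⟨b, hb, h0, hfin, hs'⟩ := exists_dl _ (P_fin hN hF (mono_fin 2 0))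
    (P_nonneg F _) 1 (by norm_num) hs
  obtain ⟨c, hc, h0', hfin', hs''⟩ := exists_dl _ hfin h0 0 (by norm_num) hs'
  have hz := eq_zero_of_sum _ hfin' h0' hs''
  have mem : ∀ a, 1 ≤ P F (mono 2 0) a → a ∈ N := by
    intro a ha
    have := sees hN hF (x := mono 2 0) (p := 0) (a := a)
      (fun z hz => by simp [mono, hz]) (by omega)
    simpa using hN.neg_mem this
  refine ⟨b, mem b hb, c, mem c ?_, ?_⟩
  · have := dl_nonneg b c; omega
  · intro p
    funext z
    have h1 := mono_trans hF 2 0 p z
    rw [zero_add] at h1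
    rw [h1]
    have := hz (z - p)
    rw [dl_trans, dl_trans] at this
    rw [add_comm p b, add_comm p c]
    simp only [Pi.add_apply]
    linarith

end

end Helper909CA
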