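import Pool.Agent.Helper909_ca.Basic

/-!
# The moving case: a particle of value one moves by a nonzero vector
-/

set_option linter.unusedSectionVars false

namespace Helper909CA

open Function

variable {G : Type*} [AddCommGroup G] [DecidableEq G]
variable {N : Set G} {F : (G → Fin 3) → G → Fin 3}

/-- All pairs with these values are additive. -/
def AddP (F : (G → Fin 3) → G → Fin 3) (s t : Fin 3) : Prop :=
  ∀ p q : G, p ≠ q → P F (duo s p t q) = P F (mono s p) + P F (mono t q)

theorem AddP.symm {s t : Fin 3} (h : AddP F s t) : AddP F t s := by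
  intro p q hpq
  rw [duo_symm t s hpq, h q p hpq.symm, add_comm]

variable (hN : Geo N) (hF : Cons N F)
include hN hF

/-- No transfer out of the image of the first particle. -/
theorem oneSided {s t : Fin 3} {a : G} (ha : a ∈ N) (ha0 : a ≠ 0)
    (hs0 : s ≠ 0)
    (Hs : ∀ p, P F (mono s p) = (s.val : ℤ) • dl (p + a))
    (Ht : ∀ p, P F (mono t p) = (t.val : ℤ) • dl (p + a))
    (Hst : s = 2 → (∀ p, P F (mono 1 p) = dl (p + a)) ∧ AddP F 1 1 ∧ AddP F 1 t)
    {p q v w : G} {c : ℤ} (hpq : p ≠ q) (hvw : v ≠ w) (hs : v + w = p + q) (hc : 1 ≤ c)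
    (hw : w = p + a)
    (hform : P F (duo s p t q) = P F (mono s p) + P F (mono t q) + c • (dl v - dl w)) :
    False := by
  have hv : v = q - a := by
    rw [hw] at hs
    have : v + a = q := by
      have h' : p + (v + a) = p + q := by rw [← hs]; abel
      exact add_left_cancel h'
    rw [← this]; abel
  have hqw : q + a ≠ w := by
    rw [hw]; intro h; exact hpq (add_right_cancel h).symm
  have hcs : c ≤ s.val := by
    have h1 := congrFun hform w
    have h2 := P_nonneg F (duo s p t q) w
    rw [h1, Hs, Ht] at h2
    simp only [Pi.add_apply, Pi.smul_apply, Pi.sub_apply, smul_eq_mul] at h2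
    rw [dl_ne hvw.symm, dl_ne hqw.symm, ← hw, dl_self] at h2
    linarith
  have hpq2 : p ≠ q - a - a := by
    intro h
    apply hvw
    rw [hv, hw, h]; abel
  by_cases hcase : c = s.val
  · -- full transfer: a line configuration
    have e1 : P F (duo s (q - a - a) t q) = P F (duo s p t q) := by
      rw [line hN hF s (q - a - a) t (q := q) ha ha0 (by abel), hform, Hs, Ht, Hs, hcase, hv, hw]
      have : q - a - a + a = q - a := by abel
      rw [this]
      funext z
      simp only [Pi.add_apply, Pi.smul_apply, Pi.sub_apply, smul_eq_mul]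
      ring
    have e2 := conflict hF (duo_fin _ _ _ _) (duo_fin _ _ _ _) e1
    have e3 := congrFun e2 p
    simp only [duo, hpq2, hpq, if_true, if_false] at e3
    exact hs0 e3.symm
  · -- s = 2 and c = 1
    have hs2 : s = 2 := by
      have := s.isLt
      apply Fin.ext
      show s.val = 2
      omega
    have hc1 : c = 1 := by
      subst hs2
      have : ((2 : Fin 3).val : ℤ) = 2 := rfl
      omega
    obtain ⟨H1, A11, A1t⟩ := Hst hs2
    have hne3 : q - a - a ≠ q := by
      intro h
      have h2 : (2 : ℤ) • a = 0 := by
        rw [two_smul]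
        have : q - (a + a) = q := by rw [← sub_sub]; exact h
        exact sub_eq_self.mp this
      rcases hN.tf h2 with h3 | h3
      · norm_num at h3
      · exact ha0 h3
    have e1 : P F (trio 1 p 1 (q - a - a) t q) = P F (duo s p t q) := by
      rw [triple hN hF 1 1 t hpq2 hpq hne3, A11 _ _ hpq2, A1t _ _ hpq, A1t _ _ hne3, hform, hs2,
        hc1]
      rw [hs2] at Hs
      rw [Hs, Ht, H1, H1, hv, hw]
      have : q - a - a + a = q - a := by abel
      rw [this]
      funext z
      simp only [Pi.add_apply, Pi.smul_apply, Pi.sub_apply, smul_eq_mul]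
      have : ((2 : Fin 3).val : ℤ) = 2 := rfl
      rw [this]
      ring
    have e2 := conflict hF (trio_fin _ _ _ _ _ _) (duo_fin _ _ _ _) e1
    have e3 := congrFun e2 p
    simp only [duo, trio, if_true] at e3
    rw [hs2] at e3
    exact absurd e3 (by decide)

/-- Additivity when both particles move by the same nonzero vector. -/
theorem stepI {s t : Fin 3} {a : G} (ha : a ∈ N) (ha0 : a ≠ 0)
    (hs0 : s ≠ 0) (ht0 : t ≠ 0)
    (Hs : ∀ p, P F (mono s p) = (s.val : ℤ) • dl (p + a))
    (Ht : ∀ p, P F (mono t p) = (t.val : ℤ) • dl (p + a))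
    (Hst : s = 2 → (∀ p, P F (mono 1 p) = dl (p + a)) ∧ AddP F 1 1 ∧ AddP F 1 t)
    (Hts : t = 2 → (∀ p, P F (mono 1 p) = dl (p + a)) ∧ AddP F 1 1 ∧ AddP F 1 s) :
    AddP F s t := by
  intro p q hpq
  rcases pair hN hF s t hpq with h | ⟨v, w, c, hvw, hs, _, _, _, _, hc, hform⟩
  · exact h
  · exfalso
    have hw : w = p + a ∨ w = q + a := by
      by_contra hno
      rw [not_or] at hno
      have h1 := congrFun hform w
      have h2 := P_nonneg F (duo s p t q) w
      rw [h1, Hs, Ht] at h2
      simp only [Pi.add_apply, Pi.smul_apply, Pi.sub_apply, smul_eq_mul] at h2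
      rw [dl_ne hvw.symm, dl_ne hno.1, dl_ne hno.2, dl_self] at h2
      linarith
    rcases hw with hw | hw
    · exact oneSided hN hF ha ha0 hs0 Hs Ht Hst hpq hvw hs hc hw hform
    · refine oneSided hN hF ha ha0 ht0 Ht Hs Hts hpq.symm hvw (by rw [hs]; abel) hc hw
        (?_ : P F (duo t q s p) = _)
      rw [duo_symm t s hpq.symm, hform]
      abel

/-- In the moving case everything with at most two particles is translated. -/
theorem caseOne {a : G} (ha : a ∈ N) (ha0 : a ≠ 0) (H1 : ∀ p, P F (mono 1 p) = dl (p + a)) :
    (∀ p, P F (mono 2 p) = (2 : ℤ) • dl (p + a)) ∧ AddP F 1 1 ∧ AddP F 1 2 ∧ AddP F 2 2 := by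
  have H1' : ∀ p, P F (mono 1 p) = (((1 : Fin 3).val : ℕ) : ℤ) • dl (p + a) := by
    intro p; rw [H1]; simp
  have A11 : AddP F 1 1 := stepI hN hF ha ha0 (by decide) (by decide) H1' H1'
    (fun h => absurd h (by decide)) (fun h => absurd h (by decide))
  obtain ⟨b, hb, c, hc, H2⟩ := image_two hN hF
  -- b = c
  have hbc : b = c := by
    by_contra hbc
    have hne : b - a ≠ c - a := fun h => hbc (sub_left_injective h)
    have e1 : P F (duo 1 (b - a) 1 (c - a)) = P F (mono 2 0) := by
      rw [A11 _ _ hne, H1, H1, H2]
      simp
    have e2 := conflict hF (duo_fin _ _ _ _) (mono_fin _ _) e1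
    have e3 := congrFun e2 (b - a)
    simp only [duo, mono, if_true] at e3
    split_ifs at e3 <;> exact absurd e3 (by decide)
  subst hbc
  have H2' : ∀ p, P F (mono 2 p) = (2 : ℤ) • dl (p + b) := by
    intro p; rw [H2, two_smul]
  -- b = a
  have hba : b = a := by
    by_contra hba
    -- first the exceptional pair
    have key : ∀ p : G, b = 0 ∧ P F (duo 1 p 2 (p + a)) = dl (p + a) + (2 : ℤ) • dl p := by
      intro p
      set q := p + a - b with hq
      have hqb : q + b = p + a := by rw [hq]; abel
      have hpq : p ≠ q := by
        intro h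
        apply hba
        have : p + b = p + a := by rw [← hqb, ← h]
        exact add_left_cancel this
      rcases pair hN hF 1 2 hpq with h | ⟨v, w, c, hvw, hs, _, _, _, _, hc, hform⟩
      · exfalso
        have h1 := congrFun h (p + a)
        have h2 := P_le F (duo 1 p 2 q) (p + a)
        rw [h1, H1, H2', hqb] at h2
        simp at h2
      · rw [H1, H2', hqb] at hform
        have hw : w = p + a := by
          by_contra hw
          have h1 := congrFun hform (p + a)
          have h2 := P_le F (duo 1 p 2 q) (p + a)
          rw [h1] at h2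
          simp only [Pi.add_apply, Pi.smul_apply, Pi.sub_apply, smul_eq_mul] at h2
          rw [dl_ne (Ne.symm hw), dl_self] at h2
          have := dl_nonneg v (p + a)
          nlinarith
        have hv : v = q - a := by
          rw [hw] at hs
          have : v + a = q := by
            have h' : p + (v + a) = p + q := by rw [← hs]; abel
            exact add_left_cancel h'
          rw [← this]; abel
        have hpq2 : p ≠ q - a - a := by
          intro h
          apply hvw
          rw [hv, hw, h]; abel
        have hc2 : c ≤ 2 := by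
          have h1 := congrFun hform v
          have h2 := P_le F (duo 1 p 2 q) v
          rw [h1] at h2
          simp only [Pi.add_apply, Pi.smul_apply, Pi.sub_apply, smul_eq_mul] at h2
          rw [dl_ne hvw, dl_self, ← hw, dl_ne hvw] at h2
          linarith
        have hc12 : c = 1 ∨ c = 2 := by omega
        rcases hc12 with hc1 | hc2
        · exfalso
          have e1 : P F (duo 1 (q - a - a) 2 q) = P F (duo 1 p 2 q) := by
            rw [line hN hF 1 (q - a - a) 2 (q := q) ha ha0 (by abel), hform, H1, H2', hc1, hv, hw,
              hqb]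
            have : q - a - a + a = q - a := by abel
            rw [this]
            funext z
            simp only [Pi.add_apply, Pi.smul_apply, Pi.sub_apply, smul_eq_mul]
            ring
          have e2 := conflict hF (duo_fin _ _ _ _) (duo_fin _ _ _ _) e1
          have e3 := congrFun e2 p
          simp only [duo, hpq2, hpq, if_true, if_false] at e3
          exact absurd e3 (by decide)
        · have hvb : v = p - b := by rw [hv, hq]; abel
          by_cases hb0 : b = 0
          · refine ⟨hb0, ?_⟩
            have hqq : p + a = q := by rw [hq, hb0]; abel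
            have hvp : v = p := by rw [hvb, hb0, sub_zero]
            rw [hqq, hform, hc2, hvp, hw, ← hqq]
            funext z
            simp only [Pi.add_apply, Pi.smul_apply, Pi.sub_apply, smul_eq_mul]
            ring
          · exfalso
            have hq2 : q ≠ p - b - b := by
              intro h
              apply hvw
              rw [hvb, hw, ← hqb, h]; abel
            have e1 : P F (duo 1 p 2 (p - b - b)) = P F (duo 1 p 2 q) := by
              rw [line' hN hF 1 p 2 (q := p - b - b) hb hb0 rfl, hform, H1, H2', hc2, hvb, hw]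
              have : p - b - b + b = p - b := by abel
              rw [this]
              funext z
              simp only [Pi.add_apply, Pi.smul_apply, Pi.sub_apply, smul_eq_mul]
              ring
            have e2 := conflict hF (duo_fin _ _ _ _) (duo_fin _ _ _ _) e1
            have e3 := congrFun e2 q
            simp only [duo, hpq.symm, hq2, if_true, if_false] at e3
            exact absurd e3 (by decide)
    have hb0 : b = 0 := (key 0).1
    have h12 : P F (duo 1 (0 : G) 2 a) = dl a + (2 : ℤ) • dl 0 := by
      have := (key 0).2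
      rwa [zero_add] at this
    have n1 : (-a : G) ≠ 0 := neg_ne_zero.mpr ha0
    have n2 : (-a : G) ≠ a := by
      intro h
      have h2 : (2 : ℤ) • a = 0 := by
        rw [two_smul]
        nth_rw 1 [← h]
        abel
      rcases hN.tf h2 with h3 | h3
      · norm_num at h3
      · exact ha0 h3
    have n3 : (0 : G) ≠ a := Ne.symm ha0
    have h2 := P_le F (trio 1 (-a) 1 0 2 a) 0
    rw [triple hN hF 1 1 2 n1 n2 n3, A11 _ _ n1, h12,
      line hN hF 1 (-a) 2 (q := a) ha ha0 (by abel)] at h2
    simp only [H1, H2', hb0] at h2
    simp only [Pi.add_apply, Pi.sub_apply, Pi.smul_apply, smul_eq_mul] at h2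
    simp [dl_apply, n3] at h2
  subst hba
  have H2'' : ∀ p, P F (mono 2 p) = (((2 : Fin 3).val : ℕ) : ℤ) • dl (p + b) := by
    intro p; rw [H2']; rfl
  have A12 : AddP F 1 2 := stepI hN hF ha ha0 (by decide) (by decide) H1' H2''
    (fun h => absurd h (by decide)) (fun _ => ⟨H1, A11, A11⟩)
  have A22 : AddP F 2 2 := stepI hN hF ha ha0 (by decide) (by decide) H2'' H2''
    (fun _ => ⟨H1, A11, A12⟩) (fun _ => ⟨H1, A11, A12⟩)
  exact ⟨H2', A11, A12, A22⟩

end Helper909CA
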