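import Pool.Agent.Helper909_ca.CaseOne

/-!
# The resting case: a particle of value one does not move
-/

set_option linter.unusedSectionVars false
set_option linter.unusedSimpArgs false

namespace Helper909CA

open Function

variable {G : Type*} [AddCommGroup G] [DecidableEq G]
variable {N : Set G} {F : (G → Fin 3) → G → Fin 3}

/-- Sites of a line. -/
def st (e : G) (n : ℤ) : G := n • e

theorem st_add (e : G) (n m : ℤ) : st e n + st e m = st e (n + m) := by
  unfold st; rw [add_smul]

theorem st_sub (e : G) (n m : ℤ) : st e n - st e m = st e (n - m) := by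
  unfold st; rw [sub_smul]

theorem st_inj (hN : Geo N) {e : G} (he : e ≠ 0) (n m : ℤ) : st e n = st e m ↔ n = m := by
  constructor
  · intro h
    have h1 : (n - m) • e = 0 := by rw [sub_smul]; exact sub_eq_zero.mpr h
    rcases hN.tf h1 with h2 | h2
    · omega
    · exact absurd h2 he
  · rintro rfl; rfl

theorem dl_st (hN : Geo N) {e : G} (he : e ≠ 0) (n m : ℤ) :
    dl (st e n) (st e m) = if m = n then 1 else 0 := by
  rw [dl_apply]; simp only [st_inj hN he]

theorem st_solve {e v : G} {n m k : ℤ} (h : v + st e k = st e n + st e m) :
    v = st e (n + m - k) := by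
  have : v = st e n + st e m - st e k := by rw [← h]; abel
  rw [this, st_add, st_sub]

variable (hN : Geo N) (hF : Cons N F)
include hN hF

theorem st_line {e : G} (he : e ∈ N) (he0 : e ≠ 0) (s t : Fin 3) (n : ℤ) :
    P F (duo s (st e n) t (st e (n + 2))) = P F (mono s (st e n)) + P F (mono t (st e (n + 2))) :=
  line hN hF s _ t he he0 (by unfold st; rw [add_smul, two_smul]; abel)

theorem A11_of_two (H1 : ∀ p, P F (mono 1 p) = dl p) {b : G}
    (H2 : ∀ p, P F (mono 2 p) = (2 : ℤ) • dl (p + b)) : AddP F 1 1 := by
  intro p q hpq
  rcases pair hN hF 1 1 hpq with h | ⟨v, w, c, hvw, hs, _, _, _, _, hc, hform⟩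
  · exact h
  · exfalso
    rw [H1, H1] at hform
    -- the image is `2` at one of the cells
    have main : ∀ p q : G, p ≠ q → v + w = p + q → w = p →
        P F (duo 1 p 1 q) = dl p + dl q + c • (dl v - dl w) → False := by
      intro p q hpq hs hw hform
      have hv : v = q := by
        rw [hw, add_comm p q] at hs
        exact add_right_cancel hs
      have hc1 : c = 1 := by
        have h1 := congrFun hform w
        have h2 := P_nonneg F (duo 1 p 1 q) w
        rw [h1] at h2
        simp only [Pi.add_apply, Pi.smul_apply, Pi.sub_apply, smul_eq_mul] at h2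
        rw [hw, hv, dl_self, dl_ne hpq] at h2
        omega
      have e1 : P F (mono 2 (q - b)) = P F (duo 1 p 1 q) := by
        rw [hform, H2, hc1, hw, hv, sub_add_cancel]
        funext z
        simp only [Pi.add_apply, Pi.smul_apply, Pi.sub_apply, smul_eq_mul]
        ring
      have e2 := conflict hF (mono_fin _ _) (duo_fin _ _ _ _) e1
      have e3 := congrFun e2 p
      simp only [duo, mono, if_true] at e3
      split_ifs at e3 <;> exact absurd e3 (by decide)
    have hw : w = p ∨ w = q := by
      by_contra hno
      rw [not_or] at hno
      have h1 := congrFun hform w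
      have h2 := P_nonneg F (duo 1 p 1 q) w
      rw [h1] at h2
      simp only [Pi.add_apply, Pi.smul_apply, Pi.sub_apply, smul_eq_mul] at h2
      rw [dl_ne hvw.symm, dl_ne hno.1, dl_ne hno.2, dl_self] at h2
      linarith
    rcases hw with hw | hw
    · exact main p q hpq hs hw hform
    · refine main q p hpq.symm (by rw [hs]; abel) hw ?_
      rw [duo_symm 1 1 hpq.symm, hform]
      abel

/-- Nothing moves. -/
theorem restA (H1 : ∀ p, P F (mono 1 p) = dl p)
    (H2 : ∀ p, P F (mono 2 p) = (2 : ℤ) • dl p) : AddP F 1 2 ∧ AddP F 2 2 := by
  constructor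
  · intro p q hpq
    rcases pair hN hF 1 2 hpq with h | ⟨v, w, c, hvw, hs, hpv, hqv, _, _, hc, hform⟩
    · exact h
    · exfalso
      rw [H1, H2] at hform
      have hw : w = p ∨ w = q := by
        by_contra hno
        rw [not_or] at hno
        have h1 := congrFun hform w
        have h2 := P_nonneg F (duo 1 p 2 q) w
        rw [h1] at h2
        simp only [Pi.add_apply, Pi.smul_apply, Pi.sub_apply, smul_eq_mul] at h2
        rw [dl_ne hvw.symm, dl_ne hno.1, dl_ne hno.2, dl_self] at h2
        linarith
      have hwq : w = q ∧ v = p := by
        rcases hw with hw | hw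
        · exfalso
          have hv : v = q := by
            rw [hw, add_comm p q] at hs
            exact add_right_cancel hs
          have h1 := congrFun hform v
          have h2 := P_le F (duo 1 p 2 q) v
          rw [h1] at h2
          simp only [Pi.add_apply, Pi.smul_apply, Pi.sub_apply, smul_eq_mul] at h2
          rw [hw, hv, dl_self, dl_ne hpq.symm] at h2
          linarith
        · refine ⟨hw, ?_⟩
          rw [hw] at hs
          exact add_right_cancel hs
      obtain ⟨hw, hv⟩ := hwq
      have hc1 : c = 1 := by
        have h1 := congrFun hform v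
        have h2 := P_le F (duo 1 p 2 q) v
        rw [h1] at h2
        simp only [Pi.add_apply, Pi.smul_apply, Pi.sub_apply, smul_eq_mul] at h2
        rw [hw, hv, dl_self, dl_ne hpq] at h2
        omega
      have F12 : P F (duo 1 p 2 q) = (2 : ℤ) • dl p + dl q := by
        rw [hform, hc1, hw, hv]
        funext z
        simp only [Pi.add_apply, Pi.smul_apply, Pi.sub_apply, smul_eq_mul]
        ring
      have F21 : P F (duo 2 p 1 q) = dl p + (2 : ℤ) • dl q := by
        rcases pair hN hF 2 1 hpq with h | ⟨v', w', c', hvw', hs', _, _, _, _, hc', hform'⟩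
        · exfalso
          rw [H1, H2, ← F12] at h
          have e2 := conflict hF (duo_fin _ _ _ _) (duo_fin _ _ _ _) h
          have e3 := congrFun e2 p
          simp only [duo, if_true] at e3
          exact absurd e3 (by decide)
        · rw [H1, H2] at hform'
          have hw' : w' = p ∨ w' = q := by
            by_contra hno
            rw [not_or] at hno
            have h1 := congrFun hform' w'
            have h2 := P_nonneg F (duo 2 p 1 q) w'
            rw [h1] at h2
            simp only [Pi.add_apply, Pi.smul_apply, Pi.sub_apply, smul_eq_mul] at h2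
            rw [dl_ne hvw'.symm, dl_ne hno.1, dl_ne hno.2, dl_self] at h2
            linarith
          rcases hw' with hw' | hw'
          · have hv' : v' = q := by
              rw [hw', add_comm p q] at hs'
              exact add_right_cancel hs'
            have hc1' : c' = 1 := by
              have h1 := congrFun hform' v'
              have h2 := P_le F (duo 2 p 1 q) v'
              rw [h1] at h2
              simp only [Pi.add_apply, Pi.smul_apply, Pi.sub_apply, smul_eq_mul] at h2
              rw [hw', hv', dl_self, dl_ne hpq.symm] at h2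
              omega
            rw [hform', hc1', hw', hv']
            funext z
            simp only [Pi.add_apply, Pi.smul_apply, Pi.sub_apply, smul_eq_mul]
            ring
          · exfalso
            have hv' : v' = p := by
              rw [hw'] at hs'
              exact add_right_cancel hs'
            have h1 := congrFun hform' v'
            have h2 := P_le F (duo 2 p 1 q) v'
            rw [h1] at h2
            simp only [Pi.add_apply, Pi.smul_apply, Pi.sub_apply, smul_eq_mul] at h2
            rw [hw', hv', dl_self, dl_ne hpq] at h2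
            linarith
      -- the triple 2 1 2
      obtain ⟨e, he⟩ : ∃ e, e = q - p := ⟨_, rfl⟩
      have heN : e ∈ N := by rw [he, ← hv]; exact hqv
      have he0 : e ≠ 0 := by rw [he]; exact sub_ne_zero.mpr hpq.symm
      have hq : q = p + e := by rw [he]; abel
      have n2 : p ≠ q + e := by
        intro h
        have h2 : (2 : ℤ) • e = 0 := by
          rw [two_smul]
          have : p + (e + e) = p := by rw [← add_assoc, ← hq]; exact h.symm
          exact left_eq_add.mp this.symm
        rcases hN.tf h2 with h3 | h3
        · norm_num at h3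
        · exact he0 h3
      have n3 : q ≠ q + e := by
        intro h; exact he0 (left_eq_add.mp h)
      have hlast : P F (duo 1 q 2 (q + e)) q = 2 := by
        have := duo_trans hF 1 p 2 q e q
        rw [← hq] at this
        rw [this, F12]
        have hqe : q - e = p := by rw [he]; abel
        rw [hqe]
        simp only [Pi.add_apply, Pi.smul_apply, smul_eq_mul]
        rw [dl_self, dl_ne hpq]; norm_num
      have h2 := P_le F (trio 2 p 1 q 2 (q + e)) q
      rw [triple hN hF 2 1 2 hpq n2 n3, F21, H1, H2, H2,
        line hN hF 2 p 2 (q := q + e) heN he0 (by rw [hq]), H2, H2] at h2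
      simp only [Pi.add_apply, Pi.smul_apply, Pi.sub_apply, smul_eq_mul] at h2
      rw [hlast, dl_self, dl_ne hpq.symm, dl_ne n3] at h2
      norm_num at h2
  · intro p q hpq
    rcases pair hN hF 2 2 hpq with h | ⟨v, w, c, hvw, hs, _, _, _, _, hc, hform⟩
    · exact h
    · exfalso
      rw [H2, H2] at hform
      have hw : w = p ∨ w = q := by
        by_contra hno
        rw [not_or] at hno
        have h1 := congrFun hform w
        have h2 := P_nonneg F (duo 2 p 2 q) w
        rw [h1] at h2
        simp only [Pi.add_apply, Pi.smul_apply, Pi.sub_apply, smul_eq_mul] at h2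
        rw [dl_ne hvw.symm, dl_ne hno.1, dl_ne hno.2, dl_self] at h2
        linarith
      have h1 := congrFun hform v
      have h2 := P_le F (duo 2 p 2 q) v
      rw [h1] at h2
      simp only [Pi.add_apply, Pi.smul_apply, Pi.sub_apply, smul_eq_mul] at h2
      rcases hw with hw | hw
      · have hv : v = q := by
          rw [hw, add_comm p q] at hs
          exact add_right_cancel hs
        rw [hw, hv, dl_self, dl_ne hpq.symm] at h2
        linarith
      · have hv : v = p := by
          rw [hw] at hs
          exact add_right_cancel hs
        rw [hw, hv, dl_self, dl_ne hpq] at h2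
        linarith

/-- A resting `1` and a moving `2` is impossible. -/
theorem restB (H1 : ∀ p, P F (mono 1 p) = dl p) {b : G} (hb : b ∈ N) (hb0 : b ≠ 0)
    (H2 : ∀ p, P F (mono 2 p) = (2 : ℤ) • dl (p + b)) : False := by
  have A11 := A11_of_two hN hF H1 H2
  have hst : ∀ n, st b n + b = st b (n + 1) := by
    intro n; unfold st; rw [add_smul, one_smul]
  have sne : ∀ {n m : ℤ}, n ≠ m → st b n ≠ st b m := by
    intro n m h h'; exact h ((st_inj hN hb0 n m).mp h')
  have H1' : ∀ n, P F (mono 1 (st b n)) = dl (st b n) := fun n => H1 _
  have H2' : ∀ n, P F (mono 2 (st b n)) = (2 : ℤ) • dl (st b (n + 1)) := by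
    intro n; rw [H2, hst]
  have not2 : st b 2 ∉ N := by
    have := hN.two_not hb hb0
    rwa [← two_smul ℤ b] at this
  have D1 : ∀ n, P F (duo 1 (st b n) 2 (st b (n - 1))) =
      (2 : ℤ) • dl (st b n) + dl (st b (n - 1)) := by
    intro n
    have hne : st b n ≠ st b (n - 1) := sne (by omega)
    have hn1 : n - 1 + 1 = n := by ring
    rcases pair hN hF 1 2 hne with h | ⟨v, w, c, hvw, hs, _, _, _, _, hc, hform⟩
    · exfalso
      have h1 := congrFun h (st b n)
      have h2 := P_le F (duo 1 (st b n) 2 (st b (n - 1))) (st b n)
      rw [h1, H1', H2', hn1] at h2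
      simp at h2
    · rw [H1', H2', hn1] at hform
      have hw : w = st b n := by
        by_contra hw
        have h1 := congrFun hform w
        have h2 := P_nonneg F (duo 1 (st b n) 2 (st b (n - 1))) w
        rw [h1] at h2
        simp only [Pi.add_apply, Pi.smul_apply, Pi.sub_apply, smul_eq_mul] at h2
        rw [dl_ne hvw.symm, dl_ne hw, dl_self] at h2
        linarith
      have hv : v = st b (n - 1) := by
        rw [hw] at hs
        have := st_solve hs
        rw [this]; congr 1; ring
      have hc2 : c ≤ 2 := by
        have h1 := congrFun hform v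
        have h2 := P_le F (duo 1 (st b n) 2 (st b (n - 1))) v
        rw [h1] at h2
        simp only [Pi.add_apply, Pi.smul_apply, Pi.sub_apply, smul_eq_mul] at h2
        rw [dl_ne hvw, ← hw, dl_ne hvw, dl_self] at h2
        linarith
      have hc12 : c = 1 ∨ c = 2 := by omega
      rcases hc12 with hc1 | hc1
      · rw [hform, hc1, hw, hv]
        funext z
        simp only [Pi.add_apply, Pi.smul_apply, Pi.sub_apply, smul_eq_mul]
        ring
      · exfalso
        have hne2 : st b (n - 2) ≠ st b n := sne (by omega)
        have e1 : P F (duo 2 (st b (n - 2)) 1 (st b n)) = P F (duo 1 (st b n) 2 (st b (n - 1))) := by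
          have hl := st_line hN hF hb hb0 2 1 (n - 2)
          have hn2 : n - 2 + 2 = n := by ring
          have hn3 : n - 2 + 1 = n - 1 := by ring
          rw [hn2, H1', H2', hn3] at hl
          rw [hl, hform, hc1, hw, hv]
          funext z
          simp only [Pi.add_apply, Pi.smul_apply, Pi.sub_apply, smul_eq_mul]
          ring
        have e2 := conflict hF (duo_fin _ _ _ _) (duo_fin _ _ _ _) e1
        have e3 := congrFun e2 (st b (n - 2))
        have hne3 : st b (n - 2) ≠ st b (n - 1) := sne (by omega)
        simp only [duo, if_true, hne2, hne3, if_false] at e3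
        exact absurd e3 (by decide)
  have D2 : ∀ n, P F (duo 1 (st b n) 2 (st b (n + 1))) =
      dl (st b n) + (2 : ℤ) • dl (st b (n + 2)) := by
    intro n
    have hne : st b n ≠ st b (n + 1) := sne (by omega)
    have hn1 : n + 1 + 1 = n + 2 := by ring
    rcases pair hN hF 1 2 hne with h | ⟨v, w, c, hvw, hs, hpv, hqv, hpw, hqw, hc, hform⟩
    · rw [h, H1', H2', hn1]
    · exfalso
      rw [H1', H2', hn1] at hform
      have hw : w = st b n ∨ w = st b (n + 2) := by
        by_contra hno
        rw [not_or] at hno
        have h1 := congrFun hform w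
        have h2 := P_nonneg F (duo 1 (st b n) 2 (st b (n + 1))) w
        rw [h1] at h2
        simp only [Pi.add_apply, Pi.smul_apply, Pi.sub_apply, smul_eq_mul] at h2
        rw [dl_ne hvw.symm, dl_ne hno.1, dl_ne hno.2, dl_self] at h2
        linarith
      rcases hw with hw | hw
      · have hv : v = st b (n + 1) := by
          rw [hw] at hs
          have := st_solve hs
          rw [this]; congr 1; ring
        have hc1 : c = 1 := by
          have h1 := congrFun hform w
          have h2 := P_nonneg F (duo 1 (st b n) 2 (st b (n + 1))) w
          rw [h1] at h2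
          simp only [Pi.add_apply, Pi.smul_apply, Pi.sub_apply, smul_eq_mul] at h2
          rw [dl_ne hvw.symm, hw, dl_self, dl_ne (sne (by omega : n ≠ n + 2))] at h2
          omega
        have e1 : P F (duo 1 (st b (n + 2)) 2 (st b (n + 1))) =
            P F (duo 1 (st b n) 2 (st b (n + 1))) := by
          have := D1 (n + 2)
          have hn : n + 2 - 1 = n + 1 := by ring
          rw [hn] at this
          rw [this, hform, hc1, hw, hv]
          funext z
          simp only [Pi.add_apply, Pi.smul_apply, Pi.sub_apply, smul_eq_mul]
          ring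
        have e2 := conflict hF (duo_fin _ _ _ _) (duo_fin _ _ _ _) e1
        have e3 := congrFun e2 (st b n)
        have hne2 : st b n ≠ st b (n + 2) := sne (by omega)
        simp only [duo, if_true, hne2, hne, if_false] at e3
        exact absurd e3 (by decide)
      · apply not2
        have := hN.neg_mem hpw
        rw [neg_sub, hw, st_sub] at this
        have hn : n + 2 - n = 2 := by ring
        rwa [hn] at this
  have D3 : ∀ n, P F (duo 2 (st b n) 2 (st b (n + 1))) =
      (2 : ℤ) • dl (st b (n + 1)) + (2 : ℤ) • dl (st b (n + 2)) := by
    intro n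
    have hne : st b n ≠ st b (n + 1) := sne (by omega)
    have hn1 : n + 1 + 1 = n + 2 := by ring
    rcases pair hN hF 2 2 hne with h | ⟨v, w, c, hvw, hs, hpv, hqv, hpw, hqw, hc, hform⟩
    · rw [h, H2', H2', hn1]
    · exfalso
      rw [H2', H2', hn1] at hform
      have hw : w = st b (n + 1) ∨ w = st b (n + 2) := by
        by_contra hno
        rw [not_or] at hno
        have h1 := congrFun hform w
        have h2 := P_nonneg F (duo 2 (st b n) 2 (st b (n + 1))) w
        rw [h1] at h2
        simp only [Pi.add_apply, Pi.smul_apply, Pi.sub_apply, smul_eq_mul] at h2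
        rw [dl_ne hvw.symm, dl_ne hno.1, dl_ne hno.2, dl_self] at h2
        linarith
      rcases hw with hw | hw
      · have hv : v = st b n := by
          rw [hw] at hs
          have := st_solve hs
          rw [this]; congr 1; ring
        have hc2 : c ≤ 2 := by
          have h1 := congrFun hform v
          have h2 := P_le F (duo 2 (st b n) 2 (st b (n + 1))) v
          rw [h1] at h2
          simp only [Pi.add_apply, Pi.smul_apply, Pi.sub_apply, smul_eq_mul] at h2
          rw [dl_ne hvw, ← hw, dl_ne hvw, hv, dl_self, dl_ne (sne (by omega : n ≠ n + 2))] at h2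
          omega
        have hc12 : c = 1 ∨ c = 2 := by omega
        rcases hc12 with hc1 | hc1
        · -- image of 1 2 1
          have m1 : st b n ≠ st b (n + 1) := sne (by omega)
          have m2 : st b n ≠ st b (n + 2) := sne (by omega)
          have m3 : st b (n + 1) ≠ st b (n + 2) := sne (by omega)
          have e1 : P F (trio 1 (st b n) 2 (st b (n + 1)) 1 (st b (n + 2))) =
              P F (duo 2 (st b n) 2 (st b (n + 1))) := by
            rw [triple hN hF 1 2 1 m1 m2 m3, D2, A11 _ _ m2, duo_symm 2 1 m3]
            have := D1 (n + 2)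
            have hn : n + 2 - 1 = n + 1 := by ring
            rw [hn] at this
            rw [this, H1', H2', H1', hn1, hform, hc1, hw, hv]
            funext z
            simp only [Pi.add_apply, Pi.smul_apply, Pi.sub_apply, smul_eq_mul]
            ring
          have e2 := conflict hF (trio_fin _ _ _ _ _ _) (duo_fin _ _ _ _) e1
          have e3 := congrFun e2 (st b n)
          simp only [duo, trio, if_true] at e3
          exact absurd e3 (by decide)
        · have e1 : P F (duo 2 (st b (n - 1)) 2 (st b (n + 1))) =
              P F (duo 2 (st b n) 2 (st b (n + 1))) := by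
            have hl := st_line hN hF hb hb0 2 2 (n - 1)
            have hn2 : n - 1 + 2 = n + 1 := by ring
            have hn3 : n - 1 + 1 = n := by ring
            rw [hn2, H2', H2', hn3, hn1] at hl
            rw [hl, hform, hc1, hw, hv]
            funext z
            simp only [Pi.add_apply, Pi.smul_apply, Pi.sub_apply, smul_eq_mul]
            ring
          have e2 := conflict hF (duo_fin _ _ _ _) (duo_fin _ _ _ _) e1
          have e3 := congrFun e2 (st b n)
          have m1 : st b n ≠ st b (n - 1) := sne (by omega)
          simp only [duo, if_true, m1, hne, if_false] at e3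
          exact absurd e3 (by decide)
      · apply not2
        have := hN.neg_mem hpw
        rw [neg_sub, hw, st_sub] at this
        have hn : n + 2 - n = 2 := by ring
        rwa [hn] at this
  -- the triple 2 2 1
  have m1 : st b 0 ≠ st b 1 := sne (by omega)
  have m2 : st b 0 ≠ st b 2 := sne (by omega)
  have m3 : st b 1 ≠ st b 2 := sne (by omega)
  have h2 := P_le F (trio 2 (st b 0) 2 (st b 1) 1 (st b 2)) (st b 1)
  have d3 := D3 0
  have d1 := D1 2
  have l := st_line hN hF hb hb0 2 1 0
  rw [duo_symm 1 2 (sne (by omega)), show (2 : ℤ) - 1 = 1 by norm_num] at d1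
  rw [H2', H1'] at l
  simp only [zero_add] at d3 l
  rw [triple hN hF 2 2 1 m1 m2 m3, d3, d1, l, H2', H2', H1'] at h2
  simp only [Pi.add_apply, Pi.smul_apply, Pi.sub_apply, smul_eq_mul, dl_st hN hb0] at h2
  norm_num at h2

/-- The swap case is impossible. -/
theorem restC (H1 : ∀ p, P F (mono 1 p) = dl p) {b c : G} (hb : b ∈ N) (hc : c ∈ N)
    (hbc : b ≠ c) (H2 : ∀ p, P F (mono 2 p) = dl (p + b) + dl (p + c)) : False := by
  -- the pair (b, c) is not additive
  have hred : ∃ b c : G, b ∈ N ∧ c ∈ N ∧ b ≠ c ∧ c - b ∈ N ∧
      (∀ p, P F (mono 2 p) = dl (p + b) + dl (p + c)) ∧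
      P F (duo 1 b 1 c) = (2 : ℤ) • dl b := by
    rcases pair hN hF 1 1 hbc with h | ⟨v, w, k, hvw, hs, hpv, hqv, hpw, hqw, hk, hform⟩
    · exfalso
      have e1 : P F (duo 1 b 1 c) = P F (mono 2 0) := by
        rw [h, H1, H1, H2]; simp
      have e2 := conflict hF (duo_fin _ _ _ _) (mono_fin _ _) e1
      have e3 := congrFun e2 b
      simp only [duo, mono, if_true] at e3
      split_ifs at e3 <;> exact absurd e3 (by decide)
    · rw [H1, H1] at hform
      have hw : w = b ∨ w = c := by
        by_contra hno
        rw [not_or] at hno
        have h1 := congrFun hform w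
        have h2 := P_nonneg F (duo 1 b 1 c) w
        rw [h1] at h2
        simp only [Pi.add_apply, Pi.smul_apply, Pi.sub_apply, smul_eq_mul] at h2
        rw [dl_ne hvw.symm, dl_ne hno.1, dl_ne hno.2, dl_self] at h2
        linarith
      have hk1 : k = 1 := by
        have h1 := congrFun hform w
        have h2 := P_nonneg F (duo 1 b 1 c) w
        rw [h1] at h2
        simp only [Pi.add_apply, Pi.smul_apply, Pi.sub_apply, smul_eq_mul] at h2
        rw [dl_ne hvw.symm, dl_self] at h2
        rcases hw with hw | hw
        · rw [hw, dl_self, dl_ne hbc] at h2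
          omega
        · rw [hw, dl_self, dl_ne hbc.symm] at h2
          omega
      rcases hw with hw | hw
      · have hv : v = c := by
          rw [hw, add_comm b c] at hs
          exact add_right_cancel hs
        refine ⟨c, b, hc, hb, hbc.symm, ?_, ?_, ?_⟩
        · rw [← hv]; exact hpv
        · intro p; rw [H2, add_comm]
        · rw [duo_symm 1 1 hbc.symm, hform, hk1, hw, hv]
          funext z
          simp only [Pi.add_apply, Pi.smul_apply, Pi.sub_apply, smul_eq_mul]
          ring
      · have hv : v = b := by
          rw [hw] at hs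
          exact add_right_cancel hs
        refine ⟨b, c, hb, hc, hbc, ?_, H2, ?_⟩
        · rw [← hv]; exact hqv
        · rw [hform, hk1, hw, hv]
          funext z
          simp only [Pi.add_apply, Pi.smul_apply, Pi.sub_apply, smul_eq_mul]
          ring
  clear H2 hbc hb hc b c
  obtain ⟨b, c, hb, hc, hbc, hcb, H2, hsw⟩ := hred
  obtain ⟨e, he⟩ : ∃ e, e = c - b := ⟨_, rfl⟩
  have heN : e ∈ N := by rw [he]; exact hcb
  have he0 : e ≠ 0 := by rw [he]; exact sub_ne_zero.mpr hbc.symm
  have hce : c = b + e := by rw [he]; abel
  have sne : ∀ {n m : ℤ}, n ≠ m → st e n ≠ st e m := by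
    intro n m h h'; exact h ((st_inj hN he0 n m).mp h')
  have H1' : ∀ n, P F (mono 1 (st e n)) = dl (st e n) := fun n => H1 _
  have not2 : st e 2 ∉ N := by
    have := hN.two_not heN he0
    rwa [← two_smul ℤ e] at this
  have not3 : st e 3 ∉ N := by
    have := hN.three_not heN he0
    unfold st
    have h3 : (3 : ℤ) • e = e + e + e := by
      rw [show (3 : ℤ) = 1 + 1 + 1 by norm_num, add_smul, add_smul, one_smul]
    rwa [h3]
  -- the swap everywhere
  have SW : ∀ n, P F (duo 1 (st e n) 1 (st e (n + 1))) = (2 : ℤ) • dl (st e n) := by
    intro n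
    funext z
    have h1 := duo_trans hF 1 b 1 c (st e n - b) z
    have h2 : b + (st e n - b) = st e n := by abel
    have h3 : c + (st e n - b) = st e (n + 1) := by
      rw [hce]; unfold st; rw [add_smul, one_smul]; abel
    rw [h2, h3] at h1
    rw [h1, hsw]
    simp only [Pi.smul_apply, smul_eq_mul]
    rw [dl_trans, h2]
  -- R
  have R : ∀ n, P F (trio 1 (st e n) 1 (st e (n + 1)) 1 (st e (n + 2))) =
      (2 : ℤ) • dl (st e n) + dl (st e (n + 1)) := by
    intro n
    have m1 : st e n ≠ st e (n + 1) := sne (by omega)
    have m2 : st e n ≠ st e (n + 2) := sne (by omega)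
    have m3 : st e (n + 1) ≠ st e (n + 2) := sne (by omega)
    have s1 := SW (n + 1)
    have hn : n + 1 + 1 = n + 2 := by ring
    rw [hn] at s1
    rw [triple hN hF 1 1 1 m1 m2 m3, SW, st_line hN hF heN he0, s1, H1', H1', H1']
    funext z
    simp only [Pi.add_apply, Pi.smul_apply, Pi.sub_apply, smul_eq_mul]
    ring
  -- the two possibilities for the image of 2
  have hposs : (b = 0 ∧ c = e) ∨ (c = 0 ∧ b = -e) := by
    have := hN.sidon (a := c) (b := b) (c := e) (e := 0) hc hb heN hN.zero_mem
      (by rw [hce]; abel)
    rcases this with ⟨h, _⟩ | ⟨h, h'⟩ | h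
    · exact absurd h.symm hbc
    · exact Or.inl ⟨h'.symm, h⟩
    · right
      rw [add_zero] at h
      refine ⟨h, ?_⟩
      rw [h] at hce
      exact eq_neg_of_add_eq_zero_left hce.symm
  rcases hposs with ⟨hb0, hce'⟩ | ⟨hc0, hbe⟩
  · -- image of 2 at p: p and p + e
    have H2' : ∀ n, P F (mono 2 (st e n)) = dl (st e n) + dl (st e (n + 1)) := by
      intro n
      rw [H2, hb0, hce', add_zero]
      congr 2
      unfold st; rw [add_smul, one_smul]
    have D : ∀ n, P F (duo 2 (st e n) 1 (st e (n + 1))) =
        dl (st e n) + (2 : ℤ) • dl (st e (n + 1)) := by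
      intro n
      have hne : st e n ≠ st e (n + 1) := sne (by omega)
      rcases pair hN hF 2 1 hne with h | ⟨v, w, k, hvw, hs, hpv, hqv, hpw, hqw, hk, hform⟩
      · rw [h, H1', H2']
        funext z
        simp only [Pi.add_apply, Pi.smul_apply, smul_eq_mul]
        ring
      · exfalso
        rw [H1', H2'] at hform
        have hw : w = st e n ∨ w = st e (n + 1) := by
          by_contra hno
          rw [not_or] at hno
          have h1 := congrFun hform w
          have h2 := P_nonneg F (duo 2 (st e n) 1 (st e (n + 1))) w
          rw [h1] at h2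
          simp only [Pi.add_apply, Pi.smul_apply, Pi.sub_apply, smul_eq_mul] at h2
          rw [dl_ne hvw.symm, dl_ne hno.1, dl_ne hno.2, dl_self] at h2
          linarith
        rcases hw with hw | hw
        · have hv : v = st e (n + 1) := by
            rw [hw] at hs
            have := st_solve hs
            rw [this]; congr 1; ring
          have h1 := congrFun hform v
          have h2 := P_le F (duo 2 (st e n) 1 (st e (n + 1))) v
          rw [h1] at h2
          simp only [Pi.add_apply, Pi.smul_apply, Pi.sub_apply, smul_eq_mul] at h2
          rw [hw, hv, dl_self, dl_ne hne.symm] at h2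
          linarith
        · have hv : v = st e n := by
            rw [hw] at hs
            have := st_solve hs
            rw [this]; congr 1; ring
          have hk1 : k = 1 := by
            have h1 := congrFun hform v
            have h2 := P_le F (duo 2 (st e n) 1 (st e (n + 1))) v
            rw [h1] at h2
            simp only [Pi.add_apply, Pi.smul_apply, Pi.sub_apply, smul_eq_mul] at h2
            rw [hw, hv, dl_self, dl_ne hne] at h2
            omega
          have e1 : P F (trio 1 (st e n) 1 (st e (n + 1)) 1 (st e (n + 2))) =
              P F (duo 2 (st e n) 1 (st e (n + 1))) := by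
            rw [R, hform, hk1, hw, hv]
            funext z
            simp only [Pi.add_apply, Pi.smul_apply, Pi.sub_apply, smul_eq_mul]
            ring
          have e2 := conflict hF (trio_fin _ _ _ _ _ _) (duo_fin _ _ _ _) e1
          have e3 := congrFun e2 (st e n)
          simp only [duo, trio, if_true] at e3
          exact absurd e3 (by decide)
    have m1 : st e 0 ≠ st e 1 := sne (by omega)
    have m2 : st e 0 ≠ st e 2 := sne (by omega)
    have m3 : st e 1 ≠ st e 2 := sne (by omega)
    have h2 := P_le F (trio 2 (st e 0) 1 (st e 1) 1 (st e 2)) (st e 1)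
    have d := D 0
    have s1 := SW 1
    have l := st_line hN hF heN he0 2 1 0
    rw [H2', H1'] at l
    rw [show (1 : ℤ) + 1 = 2 by norm_num] at s1
    simp only [zero_add] at d l
    rw [triple hN hF 2 1 1 m1 m2 m3, d, s1, l, H2', H1', H1'] at h2
    simp only [Pi.add_apply, Pi.smul_apply, Pi.sub_apply, smul_eq_mul, dl_st hN he0] at h2
    norm_num at h2
  · -- image of 2 at p: p and p - e
    have H2' : ∀ n, P F (mono 2 (st e n)) = dl (st e n) + dl (st e (n - 1)) := by
      intro n
      rw [H2, hc0, hbe, add_zero, add_comm]
      congr 2
      unfold st; rw [sub_smul, one_smul]; abel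
    -- 2 at n, 1 at n-1
    have D1 : ∀ n, P F (duo 2 (st e n) 1 (st e (n - 1))) =
        (2 : ℤ) • dl (st e n) + dl (st e (n - 1)) := by
      intro n
      have hne : st e n ≠ st e (n - 1) := sne (by omega)
      rcases pair hN hF 2 1 hne with h | ⟨v, w, k, hvw, hs, hpv, hqv, hpw, hqw, hk, hform⟩
      · exfalso
        have r := R (n - 1)
        have hn : n - 1 + 1 = n := by ring
        rw [hn] at r
        have e1 : P F (trio 1 (st e (n - 1)) 1 (st e n) 1 (st e (n - 1 + 2))) =
            P F (duo 2 (st e n) 1 (st e (n - 1))) := by
          rw [r, h, H1', H2']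
          funext z
          simp only [Pi.add_apply, Pi.smul_apply, smul_eq_mul]
          ring
        have e2 := conflict hF (trio_fin _ _ _ _ _ _) (duo_fin _ _ _ _) e1
        have e3 := congrFun e2 (st e n)
        simp only [duo, trio, if_true, hne, if_false] at e3
        exact absurd e3 (by decide)
      · rw [H1', H2'] at hform
        have hw : w = st e n ∨ w = st e (n - 1) := by
          by_contra hno
          rw [not_or] at hno
          have h1 := congrFun hform w
          have h2 := P_nonneg F (duo 2 (st e n) 1 (st e (n - 1))) w
          rw [h1] at h2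
          simp only [Pi.add_apply, Pi.smul_apply, Pi.sub_apply, smul_eq_mul] at h2
          rw [dl_ne hvw.symm, dl_ne hno.1, dl_ne hno.2, dl_self] at h2
          linarith
        rcases hw with hw | hw
        · exfalso
          have hv : v = st e (n - 1) := by
            rw [hw] at hs
            have := st_solve hs
            rw [this]; congr 1; ring
          have h1 := congrFun hform v
          have h2 := P_le F (duo 2 (st e n) 1 (st e (n - 1))) v
          rw [h1] at h2
          simp only [Pi.add_apply, Pi.smul_apply, Pi.sub_apply, smul_eq_mul] at h2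
          rw [hw, hv, dl_self, dl_ne hne.symm] at h2
          linarith
        · have hv : v = st e n := by
            rw [hw] at hs
            have := st_solve hs
            rw [this]; congr 1; ring
          have hk1 : k = 1 := by
            have h1 := congrFun hform v
            have h2 := P_le F (duo 2 (st e n) 1 (st e (n - 1))) v
            rw [h1] at h2
            simp only [Pi.add_apply, Pi.smul_apply, Pi.sub_apply, smul_eq_mul] at h2
            rw [hw, hv, dl_self, dl_ne hne] at h2
            omega
          rw [hform, hk1, hw, hv]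
          funext z
          simp only [Pi.add_apply, Pi.smul_apply, Pi.sub_apply, smul_eq_mul]
          ring
    -- the distance-three pair is additive
    have A3 : ∀ n, P F (duo 1 (st e n) 1 (st e (n + 3))) =
        dl (st e n) + dl (st e (n + 3)) := by
      intro n
      have hne : st e n ≠ st e (n + 3) := sne (by omega)
      rcases pair hN hF 1 1 hne with h | ⟨v, w, k, hvw, hs, hpv, hqv, hpw, hqw, hk, hform⟩
      · rw [h, H1', H1']
      · exfalso
        rw [H1', H1'] at hform
        have hw : w = st e n ∨ w = st e (n + 3) := by
          by_contra hno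
          rw [not_or] at hno
          have h1 := congrFun hform w
          have h2 := P_nonneg F (duo 1 (st e n) 1 (st e (n + 3))) w
          rw [h1] at h2
          simp only [Pi.add_apply, Pi.smul_apply, Pi.sub_apply, smul_eq_mul] at h2
          rw [dl_ne hvw.symm, dl_ne hno.1, dl_ne hno.2, dl_self] at h2
          linarith
        rcases hw with hw | hw
        · apply not3
          rw [hw, st_sub] at hqw
          have hn : n + 3 - n = 3 := by ring
          rwa [hn] at hqw
        · apply not3
          have := hN.neg_mem hpw
          rw [neg_sub, hw, st_sub] at this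
          have hn : n + 3 - n = 3 := by ring
          rwa [hn] at this
    -- S
    have S : ∀ n, P F (trio 1 (st e n) 1 (st e (n + 2)) 1 (st e (n + 3))) =
        dl (st e n) + (2 : ℤ) • dl (st e (n + 2)) := by
      intro n
      have m1 : st e n ≠ st e (n + 2) := sne (by omega)
      have m2 : st e n ≠ st e (n + 3) := sne (by omega)
      have m3 : st e (n + 2) ≠ st e (n + 3) := sne (by omega)
      have s1 := SW (n + 2)
      have hn : n + 2 + 1 = n + 3 := by ring
      rw [hn] at s1
      rw [triple hN hF 1 1 1 m1 m2 m3, st_line hN hF heN he0, A3, s1, H1', H1', H1']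
      funext z
      simp only [Pi.add_apply, Pi.smul_apply, Pi.sub_apply, smul_eq_mul]
      ring
    -- the pair 2 at 1, 1 at 2 (shifted so that all sites are nonnegative)
    have m12 : st e 1 ≠ st e 2 := sne (by omega)
    rcases pair hN hF 2 1 m12 with h | ⟨v, w, k, hvw, hs, hpv, hqv, hpw, hqw, hk, hform⟩
    · -- additive: 1 at 0, 1, 2
      have l := st_line hN hF heN he0 1 2 0
      rw [H2', H1'] at l
      simp only [zero_add] at l
      rw [show (2 : ℤ) - 1 = 1 by norm_num] at l
      have e1 : P F (duo 1 (st e 0) 2 (st e 2)) = P F (duo 2 (st e 1) 1 (st e 2)) := by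
        rw [l, h, H1', H2', show (1 : ℤ) - 1 = 0 by norm_num]
        funext z
        simp only [Pi.add_apply]
        ring
      have e2 := conflict hF (duo_fin _ _ _ _) (duo_fin _ _ _ _) e1
      have e3 := congrFun e2 (st e 0)
      have m1 : st e 0 ≠ st e 1 := sne (by omega)
      have m2 : st e 0 ≠ st e 2 := sne (by omega)
      simp only [duo, if_true, m1, m2, if_false] at e3
      exact absurd e3 (by decide)
    · rw [H1', H2', show (1 : ℤ) - 1 = 0 by norm_num] at hform
      have hw : w = st e 0 ∨ w = st e 1 ∨ w = st e 2 := by
        by_contra hno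
        rw [not_or, not_or] at hno
        have h1 := congrFun hform w
        have h2 := P_nonneg F (duo 2 (st e 1) 1 (st e 2)) w
        rw [h1] at h2
        simp only [Pi.add_apply, Pi.smul_apply, Pi.sub_apply, smul_eq_mul] at h2
        rw [dl_ne hvw.symm, dl_ne hno.1, dl_ne hno.2.1, dl_ne hno.2.2, dl_self] at h2
        linarith
      have hk1 : k = 1 := by
        have h1 := congrFun hform w
        have h2 := P_nonneg F (duo 2 (st e 1) 1 (st e 2)) w
        rw [h1] at h2
        simp only [Pi.add_apply, Pi.smul_apply, Pi.sub_apply, smul_eq_mul] at h2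
        rw [dl_ne hvw.symm, dl_self] at h2
        rcases hw with hw | hw | hw
        · rw [hw] at h2; simp only [dl_st hN he0] at h2; norm_num at h2; omega
        · rw [hw] at h2; simp only [dl_st hN he0] at h2; norm_num at h2; omega
        · rw [hw] at h2; simp only [dl_st hN he0] at h2; norm_num at h2; omega
      rcases hw with hw | hw | hw
      · apply not2
        rw [hw, st_sub] at hqw
        have hn : (2 : ℤ) - 0 = 2 := by ring
        rwa [hn] at hqw
      · -- 1 at 0, 2 at 2: image of S
        have hv : v = st e 2 := by
          rw [hw] at hs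
          have := st_solve hs
          rw [this]; congr 1
        have s := S 0
        simp only [zero_add] at s
        have e1 : P F (trio 1 (st e 0) 1 (st e 2) 1 (st e 3)) =
            P F (duo 2 (st e 1) 1 (st e 2)) := by
          rw [s, hform, hk1, hw, hv]
          funext z
          simp only [Pi.add_apply, Pi.smul_apply, Pi.sub_apply, smul_eq_mul]
          ring
        have e2 := conflict hF (trio_fin _ _ _ _ _ _) (duo_fin _ _ _ _) e1
        have e3 := congrFun e2 (st e 0)
        have m1 : st e 0 ≠ st e 1 := sne (by omega)
        have m2 : st e 0 ≠ st e 2 := sne (by omega)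
        simp only [duo, trio, if_true, m1, m2, if_false] at e3
        exact absurd e3 (by decide)
      · have hv : v = st e 1 := by
          rw [hw] at hs
          have := st_solve hs
          rw [this]; congr 1
        have d := D1 1
        rw [show (1 : ℤ) - 1 = 0 by norm_num] at d
        have e1 : P F (duo 2 (st e 1) 1 (st e 0)) = P F (duo 2 (st e 1) 1 (st e 2)) := by
          rw [d, hform, hk1, hw, hv]
          funext z
          simp only [Pi.add_apply, Pi.smul_apply, Pi.sub_apply, smul_eq_mul]
          ring
        have e2 := conflict hF (duo_fin _ _ _ _) (duo_fin _ _ _ _) e1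
        have e3 := congrFun e2 (st e 0)
        have m1 : st e 0 ≠ st e 1 := sne (by omega)
        have m2 : st e 0 ≠ st e 2 := sne (by omega)
        simp only [duo, if_true, m1, m2, if_false] at e3
        exact absurd e3 (by decide)

/-- Summary: the action on at most two particles. -/
theorem small : ∃ a ∈ N, (∀ p, P F (mono 1 p) = dl (p + a)) ∧
    (∀ p, P F (mono 2 p) = (2 : ℤ) • dl (p + a)) ∧ AddP F 1 1 ∧ AddP F 1 2 ∧ AddP F 2 2 := by
  obtain ⟨a, ha, H1⟩ := image_one hN hF
  by_cases ha0 : a = 0
  · subst ha0
    have H1' : ∀ p, P F (mono 1 p) = dl p := by intro p; rw [H1, add_zero]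
    obtain ⟨b, hb, c, hc, H2⟩ := image_two hN hF
    by_cases hbc : b = c
    · subst hbc
      have H2' : ∀ p, P F (mono 2 p) = (2 : ℤ) • dl (p + b) := by
        intro p; rw [H2, two_smul]
      by_cases hb0 : b = 0
      · subst hb0
        have H2'' : ∀ p, P F (mono 2 p) = (2 : ℤ) • dl p := by intro p; rw [H2', add_zero]
        obtain ⟨A12, A22⟩ := restA hN hF H1' H2''
        exact ⟨0, ha, H1, H2', A11_of_two hN hF H1' H2', A12, A22⟩
      · exact absurd (restB hN hF H1' hb hb0 H2') id
    · exact absurd (restC hN hF H1' hb hc hbc H2) id
  · obtain ⟨H2, A11, A12, A22⟩ := caseOne hN hF ha ha0 H1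
    exact ⟨a, ha, H1, H2, A11, A12, A22⟩

end Helper909CA
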