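import Pool.Agent.Helper909_ca.CaseZero

/-!
# From two particles to arbitrary configurations
-/

set_option linter.unusedSectionVars false

namespace Helper909CA

open Function

variable {G : Type*} [AddCommGroup G] [DecidableEq G]
variable {N : Set G} {F : (G → Fin 3) → G → Fin 3}

variable (hN : Geo N) (hF : Cons N F)
include hN hF

theorem extend_fin {a : G} (ha : a ∈ N) (H1 : ∀ p, P F (mono 1 p) = dl (p + a))
    (H2 : ∀ p, P F (mono 2 p) = (2 : ℤ) • dl (p + a)) (A11 : AddP F 1 1) (A12 : AddP F 1 2)
    (A22 : AddP F 2 2) (n : ℕ) :
    ∀ (x : G → Fin 3) (hx : (support x).Finite), hx.toFinset.card = n →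
      ∀ v, P F x v = ((x (v - a)).val : ℤ) := by
  have three : ∀ s : Fin 3, s = 0 ∨ s = 1 ∨ s = 2 := by decide
  have Hs : ∀ (s : Fin 3), s ≠ 0 → ∀ p, P F (mono s p) = (s.val : ℤ) • dl (p + a) := by
    intro s hs p
    rcases three s with h | h | h
    · exact absurd h hs
    · subst h; rw [H1]; simp
    · subst h; rw [H2]; rfl
  have As : ∀ s t : Fin 3, s ≠ 0 → t ≠ 0 → AddP F s t := by
    intro s t hs ht
    rcases three s with h | h | h
    · exact absurd h hs
    · rcases three t with h' | h' | h'
      · exact absurd h' ht
      · subst h; subst h'; exact A11
      · subst h; subst h'; exact A12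
    · rcases three t with h' | h' | h'
      · exact absurd h' ht
      · subst h; subst h'; exact A12.symm
      · subst h; subst h'; exact A22
  induction n using Nat.strong_induction_on with
  | _ n ih =>
    intro x hx hcard
    rcases Nat.lt_or_ge n 3 with hn | hn
    · have h3 : n = 0 ∨ n = 1 ∨ n = 2 := by omega
      rcases h3 with h | h | h
      · -- empty
        rw [h, Finset.card_eq_zero] at hcard
        have hx0 : x = fun _ => 0 := by
          funext z
          by_contra hz
          have : z ∈ hx.toFinset := by simpa using hz
          rw [hcard] at this
          simp at this
        intro v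
        subst hx0
        unfold P
        rw [hF.zero]
      · rw [h, Finset.card_eq_one] at hcard
        obtain ⟨p, hp⟩ := hcard
        have hxp : x p ≠ 0 := by
          have : p ∈ hx.toFinset := by rw [hp]; simp
          simpa using this
        have hx1 : x = mono (x p) p := by
          funext z
          unfold mono
          by_cases hz : z = p
          · simp [hz]
          · rw [if_neg hz]
            by_contra hz'
            have : z ∈ hx.toFinset := by simpa using hz'
            rw [hp, Finset.mem_singleton] at this
            exact hz this
        intro v
        rw [hx1, Hs _ hxp]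
        simp only [Pi.smul_apply, smul_eq_mul, mono, dl_apply]
        by_cases hv : v = p + a
        · simp [hv]
        · have : v - a ≠ p := fun h => hv (by rw [← h]; abel)
          simp [hv, this]
      · rw [h, Finset.card_eq_two] at hcard
        obtain ⟨p, q, hpq, hp⟩ := hcard
        have hxp : x p ≠ 0 := by
          have : p ∈ hx.toFinset := by rw [hp]; simp
          simpa using this
        have hxq : x q ≠ 0 := by
          have : q ∈ hx.toFinset := by rw [hp]; simp
          simpa using this
        have hx1 : x = duo (x p) p (x q) q := by
          funext z
          unfold duo
          by_cases hz : z = p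
          · simp [hz]
          · rw [if_neg hz]
            by_cases hz2 : z = q
            · simp [hz2]
            · rw [if_neg hz2]
              by_contra hz'
              have : z ∈ hx.toFinset := by simpa using hz'
              rw [hp, Finset.mem_insert, Finset.mem_singleton] at this
              rcases this with h | h
              · exact hz h
              · exact hz2 h
        intro v
        have hval := val_duo (x p) (x q) hpq (v - a)
        rw [← hx1] at hval
        rw [hval]
        conv_lhs => rw [hx1]
        rw [As _ _ hxp hxq _ _ hpq, Hs _ hxp, Hs _ hxq]
        simp only [Pi.add_apply, Pi.smul_apply, smul_eq_mul, mono, dl_apply]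
        congr 1
        · by_cases hv : v = p + a
          · simp [hv]
          · have : v - a ≠ p := fun h => hv (by rw [← h]; abel)
            simp [hv, this]
        · by_cases hv : v = q + a
          · simp [hv]
          · have : v - a ≠ q := fun h => hv (by rw [← h]; abel)
            simp [hv, this]
    · -- at least three
      have hnv : ∀ z, (∃ p, x p ≠ 0 ∧ p - z ∉ N) → P F x z = ((x (z - a)).val : ℤ) := by
        rintro z ⟨p, hxp, hpz⟩
        set x' : G → Fin 3 := fun y => if y = p then 0 else x y with hx'
        have hsub : support x' ⊆ support x := by
          intro y hy h
          apply hy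
          simp only [hx']
          rw [h]
          split_ifs <;> rfl
        have hfin' : (support x').Finite := hx.subset hsub
        have hlt : hfin'.toFinset.card < n := by
          rw [← hcard]
          apply Finset.card_lt_card
          rw [Finset.ssubset_iff_of_subset]
          · refine ⟨p, by simpa using hxp, ?_⟩
            simp [hx']
          · intro y hy
            simp only [Set.Finite.mem_toFinset] at hy ⊢
            exact hsub hy
        have h1 : P F x z = P F x' z := by
          apply P_congr hF
          intro u hu
          have : z + u ≠ p := by rintro rfl; exact hpz (by simpa using hu)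
          simp [hx', this]
        rw [h1, ih _ hlt x' hfin' rfl z]
        have : z - a ≠ p := by
          intro h
          apply hpz
          have : p - z = -a := by rw [← h]; abel
          rw [this]
          exact hN.neg_mem ha
        simp [hx', this]
      intro v
      by_cases hv : ∃ p, x p ≠ 0 ∧ p - v ∉ N
      · exact hnv v hv
      · push Not at hv
        have h2 : 2 < hx.toFinset.card := by omega
        rw [Finset.two_lt_card] at h2
        obtain ⟨p, hp, q, hq, r, hr, hpq, hpr, hqr⟩ := h2
        simp only [Set.Finite.mem_toFinset, mem_support] at hp hq hr
        have hothers : ∀ z, z ≠ v → P F x z - ((x (z - a)).val : ℤ) = 0 := by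
          intro z hz
          rw [hnv z, sub_self]
          by_contra hno
          push Not at hno
          have e1 := hN.par hpq hz (hno p hp) (hno q hq) (hv p hp) (hv q hq)
          have e2 := hN.par hpr hz (hno p hp) (hno r hr) (hv p hp) (hv r hr)
          rw [e1] at e2
          exact hqr (add_left_cancel e2)
        have hsum : ∑ᶠ z, (P F x z - ((x (z - a)).val : ℤ)) = 0 := by
          have hfin2 : (support (fun z => ((x (z - a)).val : ℤ))).Finite := by
            apply (hx.image (fun z => z + a)).subset
            intro z hz
            refine ⟨z - a, ?_, by simp⟩
            intro h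
            apply hz
            simp [h]
          rw [finsum_sub_distrib (P_fin hN hF hx) hfin2, finsum_P hN hF hx]
          have := finsum_comp_equiv (Equiv.subRight a) (f := fun z => ((x z).val : ℤ))
          simp only [Equiv.subRight_apply] at this
          rw [this, sub_self]
        rw [finsum_eq_single _ v hothers] at hsum
        linarith

/-- The abstract classification. -/
theorem main : ∃ a ∈ N, ∀ (x : G → Fin 3) (v : G), F x v = x (v - a) := by
  classical
  obtain ⟨a, ha, H1, H2, A11, A12, A22⟩ := small hN hF
  refine ⟨a, ha, ?_⟩
  intro x v
  set x' : G → Fin 3 := fun z => if z - v ∈ N then x z else 0 with hx'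
  have hfin : (support x').Finite := by
    apply (hN.fin.image (fun u => v + u)).subset
    intro z hz
    by_contra h
    apply hz
    simp only [hx']
    rw [if_neg]
    intro h'
    exact h ⟨z - v, h', by simp⟩
  have h1 : F x v = F x' v := by
    apply hF.loc
    intro u hu
    simp [hx', hu]
  have h2 := extend_fin hN hF ha H1 H2 A11 A12 A22 _ x' hfin rfl v
  have h3 : x' (v - a) = x (v - a) := by
    have : v - a - v ∈ N := by
      have : v - a - v = -a := by abel
      rw [this]; exact hN.neg_mem ha
    simp only [hx', this, if_true]
  rw [h1, ← h3]
  unfold P at h2
  apply Fin.ext
  exact_mod_cast h2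

end Helper909CA
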